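import Mathlib

set_option autoImplicit false

namespace Pool.Agent.Results.MP_23516e_gt.Counter
open Set Filter Topology Ordinal

noncomputable abbrev w : Ordinal.{0} := ω₁
noncomputable abbrev k : Ordinal.{0} := w + 1
noncomputable abbrev T : Ordinal.{0} := k * ω
abbrev W : Type 1 := Icc (0 : Ordinal.{0}) w
abbrev P : Type 1 := OnePoint (ℕ × W)

theorem cnt {o : Ordinal.{0}} : (Iio o).Countable ↔ o < w := by
  rw [← Cardinal.le_aleph0_iff_set_countable, Cardinal.mk_Iio_ordinal, Cardinal.lift_le_aleph0,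
    ← Cardinal.lt_aleph_one_iff, Cardinal.lt_omega_iff_card_lt]

theorem wl : Order.IsSuccLimit w := Cardinal.isSuccLimit_omega 1

theorem k0 : k ≠ 0 := (zero_le.trans_lt (lt_add_one w)).ne'

noncomputable def psi (t : Fin 3) : P → Ordinal.{0}
  | (q : ℕ × W) => k * (3 * q.1 + t.1 : ℕ) + q.2.1
  | OnePoint.infty => T

theorem lt_T (m : ℕ) (a : W) : k * m + a.1 < T :=
  lt_mul_iff.2 ⟨m, natCast_lt_omega0 m, a.1, a.2.2.trans_lt (lt_add_one w), rfl⟩

theorem psi_le (t : Fin 3) (p : P) : psi t p ≤ T := by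
  induction p using OnePoint.rec with
  | infty => exact le_rfl
  | coe q => exact (lt_T _ _).le

theorem psi_inj {s t : Fin 3} {p q : P} (h : psi s p = psi t q) :
    (s, p) = (t, q) ∨ (p = OnePoint.infty ∧ q = OnePoint.infty) := by
  induction p using OnePoint.rec with
  | infty =>
    induction q using OnePoint.rec with
    | infty => exact Or.inr ⟨rfl, rfl⟩
    | coe q => exact absurd h (lt_T _ _).ne'
  | coe p =>
    induction q using OnePoint.rec with
    | infty => exact absurd h (lt_T _ _).ne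
    | coe q =>
      have h' : k * (3 * p.1 + s.1 : ℕ) + p.2.1 = k * (3 * q.1 + t.1 : ℕ) + q.2.1 := h
      have h1 := congrArg (· / k) h'
      simp only [mul_add_div _ k0, div_eq_zero_of_lt (p.2.2.2.trans_lt (lt_add_one w)),
        div_eq_zero_of_lt (q.2.2.2.trans_lt (lt_add_one w)), add_zero, Nat.cast_inj] at h1
      rw [h1, add_right_inj] at h'
      have := s.2
      have := t.2
      obtain rfl : s = t := Fin.ext (by omega)
      obtain rfl : p = q := Prod.ext (by omega) (Subtype.ext h')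
      exact Or.inl rfl

theorem psi_cont (t : Fin 3) : Continuous (psi t) := by
  rw [OnePoint.continuous_iff]
  refine ⟨tendsto_order.2 ⟨fun a ha => ?_, fun a ha => Eventually.of_forall fun q =>
    (lt_T _ _).trans ha⟩, continuous_prod_of_discrete_left.2 fun n =>
      (isNormal_add_right (k * (3 * n + t.1 : ℕ))).continuous.comp continuous_subtype_val⟩
  obtain ⟨_, h1, h2⟩ := (lt_mul_iff_of_isSuccLimit isSuccLimit_omega0).1 ha
  obtain ⟨N, rfl⟩ := lt_omega0.1 h1
  rw [coclosedCompact_eq_cocompact]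
  refine mem_cocompact.2 ⟨Iic N ×ˢ Set.univ, (finite_Iic N).isCompact.prod isCompact_univ,
    fun q hq => h2.trans_le (le_trans ?_ le_self_add)⟩
  have : N < q.1 := by simpa using hq
  gcongr
  omega

theorem cleave (A : Set (Fin 3 × P)) : ∃ f : Fin 3 × P → Iio (T + 1 + T + 1),
    Continuous f ∧ f ⁻¹' (f '' A) = A := by
  classical
  obtain ⟨i, j, hij, h⟩ := Fintype.exists_ne_map_eq_of_card_lt
    (fun t : Fin 3 => decide ((t, OnePoint.infty) ∈ A)) (by simp)
  rw [decide_eq_decide] at h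
  let b : Fin 3 → Ordinal.{0} := fun t => if t = i ∨ t = j then 0 else T + 1
  have hb : ∀ t, b t ≤ T + 1 := fun t => by simp only [b]; split_ifs <;> simp
  refine ⟨fun x => ⟨b x.1 + psi x.1 x.2, (add_le_add (hb _) (psi_le _ _)).trans_lt (lt_add_one _)⟩,
    Continuous.subtype_mk (continuous_prod_of_discrete_left.2 fun t =>
      (isNormal_add_right (b t)).continuous.comp (psi_cont t)) _,
    Subset.antisymm ?_ (subset_preimage_image _ _)⟩
  rintro ⟨t, q⟩ ⟨⟨s, p⟩, hA, he⟩
  have he : b s + psi s p = b t + psi t q := congrArg Subtype.val he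
  have k1 : ∀ s t p q, (0 : Ordinal.{0}) + psi s p ≠ T + 1 + psi t q := fun s t p q => by
    rw [zero_add]
    exact ((psi_le s p).trans_lt ((lt_add_one T).trans_le le_self_add)).ne
  by_cases hs : s = i ∨ s = j <;> by_cases ht : t = i ∨ t = j <;>
    simp only [b, hs, ht, if_true, if_false] at he
  · rcases psi_inj (add_left_cancel he) with h1 | ⟨rfl, rfl⟩
    · exact h1 ▸ hA
    · rcases hs with rfl | rfl <;> rcases ht with rfl | rfl
      exacts [hA, h.1 hA, h.2 hA, hA]
  · exact absurd he (k1 _ _ _ _)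
  · exact absurd he.symm (k1 _ _ _ _)
  · rcases psi_inj (add_left_cancel he) with h1 | ⟨rfl, rfl⟩
    · exact h1 ▸ hA
    · obtain rfl : s = t := by omega
      exact hA

theorem good1 (c : Ordinal.{0}) : IsOpen (Ici (c + 1)) := by
  have : Ici (c + 1) = Ioi c := by ext x; exact Order.add_one_le_iff (x := c)
  rw [this]; exact isOpen_Ioi

theorem nice {c r : Ordinal.{0}} (hc : IsOpen (Ici c)) (hr : r < w) :
    ∃ U ∈ 𝓝 (c + r), U.Countable := by
  refine ⟨Ici c ∩ Iio (c + r + 1), (hc.inter isOpen_Iio).mem_nhds ⟨mem_Ici.2 le_self_add, mem_Iio.2 (lt_add_one _)⟩,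
    ((cnt.2 (wl.add_one_lt hr)).image (c + ·)).mono fun x hx => (mem_image _ _ _).2 ⟨x - c, ?_, ?_⟩⟩
  · have h := hx.2
    rwa [mem_Iio, ← Ordinal.add_sub_cancel_of_le hx.1, add_assoc, add_lt_add_iff_left] at h
  · exact Ordinal.add_sub_cancel_of_le hx.1

theorem loc {b g : Ordinal.{0}} (hb : IsOpen (Ici b)) (hg : g < T) :
    ∃ U ∈ 𝓝 (b + g), {x ∈ U | ¬ ∃ V ∈ 𝓝 x, V.Countable}.Finite := by
  obtain ⟨_, h1, h2⟩ := (lt_mul_iff_of_isSuccLimit isSuccLimit_omega0).1 hg
  obtain ⟨N, rfl⟩ := lt_omega0.1 h1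
  refine ⟨Ici b ∩ Iio (b + k * N), (hb.inter isOpen_Iio).mem_nhds
    ⟨mem_Ici.2 le_self_add, mem_Iio.2 ((add_lt_add_iff_left b).2 h2)⟩,
    ((finite_Iio N).image fun j : ℕ => b + k * j + w).subset ?_⟩
  rintro x ⟨⟨h3, h4⟩, h5⟩
  obtain ⟨x, rfl⟩ := exists_add_of_le (mem_Ici.1 h3)
  obtain ⟨q, hq, r, hr, rfl⟩ := lt_mul_iff.1 ((add_lt_add_iff_left b).1 h4)
  obtain ⟨j, rfl⟩ := lt_omega0.1 (hq.trans h1)
  rcases (Order.lt_add_one_iff.1 hr).eq_or_lt with rfl | h
  · exact ⟨j, Nat.cast_lt.1 hq, add_assoc _ _ _⟩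
  · refine absurd ?_ h5
    rw [← add_assoc]
    refine nice ?_ h
    cases j with
    | zero => simpa using hb
    | succ j =>
      rw [Nat.cast_succ, mul_add_one, ← add_assoc, ← add_assoc]
      exact good1 _

theorem noemb (e : Fin 3 × P → Iio (T + 1 + T + 1)) (he : IsEmbedding e) : False := by
  have hc : Continuous fun x => (e x).1 := continuous_subtype_val.comp he.continuous
  have hi : Function.Injective fun x => (e x).1 := Subtype.val_injective.comp he.injective
  let top : W := ⟨w, zero_le, le_rfl⟩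
  have bad : ∀ (t : Fin 3) (n : ℕ), ¬ ∃ V ∈ 𝓝 (e (t, ((n, top) : ℕ × W))).1, V.Countable := by
    rintro t n ⟨V, hV, hVc⟩
    let g : W → Fin 3 × P := fun a => (t, ((n, a) : ℕ × W))
    have hg : Continuous g := continuous_const.prodMk
      (OnePoint.continuous_coe.comp (continuous_const.prodMk continuous_id))
    have h1 := (hVc.preimage_of_injOn (f := fun a => (e (g a)).1) fun a _ b _ h => by
      simpa [g] using hi h).image Subtype.val
    obtain ⟨U, hU, h2⟩ := (mem_nhds_subtype _ _ _).1 ((hc.comp hg).continuousAt (x := top) hV)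
    obtain ⟨l, hl, h3⟩ := exists_Ioc_subset_of_mem_nhds hU ⟨0, wl.bot_lt⟩
    refine lt_irrefl w (cnt.1 (((cnt.2 (wl.add_one_lt hl)).union h1).mono fun x hx => ?_))
    rcases le_or_gt x l with h | h
    · exact Or.inl (h.trans_lt (lt_add_one l))
    · exact Or.inr ⟨⟨x, zero_le, le_of_lt hx⟩, h2 (h3 ⟨h, le_of_lt hx⟩), rfl⟩
  have key : ∀ t : Fin 3, (e (t, OnePoint.infty)).1 ∈ ({T, T + 1 + T} : Finset Ordinal.{0}) := by
    intro t
    by_contra h
    simp only [Finset.mem_insert, Finset.mem_singleton, not_or] at h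
    have : ∃ U ∈ 𝓝 (e (t, OnePoint.infty)).1, {x ∈ U | ¬ ∃ V ∈ 𝓝 x, V.Countable}.Finite := by
      have h1 := (Order.lt_add_one_iff.1 (e (t, OnePoint.infty)).2).lt_of_ne h.2
      generalize (e (t, OnePoint.infty)).1 = g at h h1
      rcases lt_or_gt_of_ne h.1 with h2 | h2
      · simpa using loc (b := 0) (by simp) h2
      · obtain ⟨g, rfl⟩ := exists_add_of_le (Order.add_one_le_iff.2 h2)
        exact loc (good1 T) ((add_lt_add_iff_left _).1 h1)
    obtain ⟨U, hU, hf⟩ := this
    have h1 : Tendsto (fun n : ℕ => (((n, top) : ℕ × W) : P)) atTop (𝓝 OnePoint.infty) := by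
      refine OnePoint.tendsto_coe_infty.comp ?_
      rw [coclosedCompact_eq_cocompact, hasBasis_cocompact.tendsto_right_iff]
      intro K hK
      obtain ⟨N, hN⟩ := (hK.image continuous_fst).finite_of_discrete.bddAbove
      exact eventually_atTop.2 ⟨N + 1, fun n hn h => by have := hN ⟨_, h, rfl⟩; omega⟩
    have h2 := (hc.tendsto _).comp ((tendsto_const_nhds (x := t)).prodMk_nhds h1) hU
    rw [← Nat.cofinite_eq_atTop] at h2
    refine Set.infinite_of_finite_compl (mem_cofinite.1 h2) ?_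
    exact (hf.preimage (f := fun n : ℕ => (e (t, ((n, top) : ℕ × W))).1) fun a _ b _ h => by
      simpa using hi h).subset fun n hn => ⟨hn, bad t n⟩
  have := Finset.card_le_card_of_injOn (s := Finset.univ) (fun t => (e (t, OnePoint.infty)).1)
    (fun t _ => key t) fun a _ b _ h => by simpa using hi h
  have h2 := Finset.card_le_two (a := T) (b := T + 1 + T)
  simp only [Finset.card_univ, Fintype.card_fin] at this
  omega

theorem result : ∃ l : Ordinal.{0}, ω₁ < l ∧ ∃ (X : Type 1) (_ : TopologicalSpace X),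
    CompactSpace X ∧ T2Space X ∧ Infinite X ∧
    (∀ A : Set X, ∃ f : X → Iio l, Continuous f ∧ f ⁻¹' (f '' A) = A) ∧
    ¬ ∃ e : X → Iio l, IsEmbedding e := by
  refine ⟨T + 1 + T + 1, ?_, Fin 3 × P, inferInstance, inferInstance, inferInstance,
    Infinite.of_injective (fun n : ℕ => (0, (((n, ⟨0, le_rfl, zero_le⟩) : ℕ × W) : P)))
      fun a b h => by simpa using h, cleave, fun ⟨e, he⟩ => noemb e he⟩
  have := lt_T 0 ⟨w, zero_le, le_rfl⟩
  simp only [Nat.cast_zero, mul_zero, zero_add] at this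
  exact this.trans_le (by rw [add_assoc, add_assoc]; exact le_self_add)

end Pool.Agent.Results.MP_23516e_gt.Counter
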